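import Mathlib
import Pool.Agent.Lib.MP_895317_an.Defs
import Pool.Agent.Lib.MP_895317_an.Main

open MeasureTheory AddCircle Set Metric
open scoped ENNReal
open Pool.Agent.Lib.MP_895317_an

namespace Pool.Agent.Results.MP_895317_an.SpectrumMeetsDisc

/-- Let `γ ∈ ℂ`, let `φ` be a bounded holomorphic function on the unit disc, let
`Φ(z) = γ/z + φ(z)` and let `ψ ∈ L^∞(𝕋)` be the boundary function of `Φ`.  If the Toeplitz operator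
`T_Φ = T_ψ` on `H²` is hypercyclic then
`𝔻 ∩ σ(T_Φ) = 𝔻 ∩ (ℂ \ Φ(𝔻)) ≠ ∅`. -/
theorem result (γ : ℂ) (φ : ℂ → ℂ) (hφ : DifferentiableOn ℂ φ (ball 0 1))
    (hb : ∃ M : ℝ, ∀ z ∈ ball (0:ℂ) 1, ‖φ z‖ ≤ M) (ψ : UnitAddCircle → ℂ)
    (hψ : MemLp ψ ∞ haarAddCircle) (hbd : IsBoundaryFunction ψ (symbolFun γ φ))
    (hyp : IsHypercyclic (toeplitz ψ hψ)) :
    ball 0 1 ∩ opSpectrum (toeplitz ψ hψ) = ball 0 1 ∩ (symbolFun γ φ '' (ball 0 1 \ {0}))ᶜ ∧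
      (ball 0 1 ∩ opSpectrum (toeplitz ψ hψ)).Nonempty :=
  main γ φ hφ hb ψ hψ hbd hyp

end Pool.Agent.Results.MP_895317_an.SpectrumMeetsDisc
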